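import Mathlib

set_option autoImplicit false

open Filter Topology Finset

namespace Pool.Agent.Results.MP_55c50e_an.Counterexample

def L (p : ℝ) : Set (ℕ → ℝ) := {f | Summable fun j => |f j| ^ p}

def OConv (p : ℝ) (d : ℕ → ℕ → ℝ) (e : ℕ → ℝ) : Prop :=
  ∃ (z : ℕ → ℕ → ℝ) (N : ℕ → ℕ), (∀ m, z m ∈ L p ∧ 0 ≤ z m) ∧ Antitone z ∧
    (∀ w ∈ L p, (∀ m, w ≤ z m) → w ≤ 0) ∧ ∀ m, ∀ k ≥ N m, |d k - e| ≤ z m

def BuoConv (p : ℝ) (x : ℕ → ℕ → ℝ) (e : ℕ → ℝ) : Prop :=
  (∀ u ∈ L p, 0 ≤ u → OConv p (fun n => |x n - e| ⊓ u) 0) ∧ ∃ y ∈ L p, ∀ n, |x n| ≤ y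

def BuoCauchy (p : ℝ) (x : ℕ → ℕ → ℝ) : Prop :=
  ∀ n : ℕ → ℕ, StrictMono n → OConv p (fun k => x (n (k + 1)) - x (n k)) 0

noncomputable def tent (u c w : ℕ) : ℝ := max 0 (1 - |(u : ℝ) - c| / w)

lemma tent_zero {u c w : ℕ} (hw : 0 < w) (h : u + w ≤ c ∨ c + w ≤ u) : tent u c w = 0 := by
  refine max_eq_left (sub_nonpos.2 ((one_le_div (by positivity)).2 (le_abs.2 ?_)))
  rcases h with h | h <;> rify at h
  exacts [.inr (by linarith), .inl (by linarith)]

lemma tent_diff (u g c : ℕ) {w : ℕ} (hw : 0 < w) : |tent (u + g) c w - tent u c w| ≤ min 1 ((g : ℝ) / w) := by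
  have h : ∀ u, 0 ≤ tent u c w ∧ tent u c w ≤ 1 := fun u =>
    ⟨le_max_left _ _, max_le zero_le_one (sub_le_self _ (by positivity))⟩
  refine le_min (abs_le.2 ⟨by linarith [h u, h (u + g)], by linarith [h u, h (u + g)]⟩) ?_
  rw [tent, tent, max_comm, max_comm 0]
  refine (abs_max_sub_max_le_abs _ _ _).trans ?_
  rw [sub_sub_sub_cancel_left, ← sub_div, abs_div, Nat.abs_cast]
  refine div_le_div_of_nonneg_right ((abs_abs_sub_abs_le_abs_sub _ _).trans_eq ?_) (by positivity)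
  simp

lemma scale {p : ℝ} (hp : 1 < p) (u g W : ℕ) {w : ℕ} (hw : 0 < w) :
    ∑ r ∈ range W, |tent (u + g) (r + W) w - tent u (r + W) w| ^ p ≤ 4 * (w * min 1 ((g : ℝ) / w) ^ p) := by
  let U := Ico (u - (W + w)) (u - (W + w) + 2 * w) ∪ Ico (u + g - (W + w)) (u + g - (W + w) + 2 * w)
  rw [← sum_subset (inter_subset_left (s₂ := U)) fun r h1 h2 => by
    simp only [U, mem_inter, h1, true_and, mem_union, mem_Ico] at h2
    rw [tent_zero hw (by omega), tent_zero hw (by omega), sub_zero, abs_zero,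
      Real.zero_rpow (by linarith)]]
  refine (sum_le_card_nsmul _ _ _ fun r _ => Real.rpow_le_rpow (abs_nonneg _) (tent_diff u g _ hw)
    (by linarith)).trans ?_
  have : (range W ∩ U).card ≤ 4 * w := (card_le_card inter_subset_right).trans
    ((card_union_le _ _).trans (by simp only [Nat.card_Ico]; omega))
  rw [nsmul_eq_mul, ← mul_assoc]
  exact mul_le_mul_of_nonneg_right (by exact_mod_cast this) (by positivity)

lemma scales {p : ℝ} (hp : 1 < p) (g : ℕ) {q K : ℕ} (h0 : 0 < K) (h1 : K ≤ q) (h2 : K ≤ (q : ℝ) ^ (p - 1)) :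
    ∑ s ∈ range K, ((q ^ (2 * s) : ℕ) : ℝ) * min 1 ((g : ℝ) / (q ^ (2 * s) : ℕ)) ^ p ≤ 2 * g := by
  have hq : 0 < q := h0.trans_le h1
  refine (sum_le_sum (g := fun s => (g : ℝ) / K +
    if g < q * q ^ (2 * s) ∧ q ^ (2 * s) < g * q then (g : ℝ) else 0) fun s _ => ?_).trans ?_
  · have hw := pow_pos hq (2 * s)
    generalize q ^ (2 * s) = w at hw
    have t0 : 0 ≤ min 1 ((g : ℝ) / w) := by positivity
    have t1 := min_le_left 1 ((g : ℝ) / w)
    have t2 := (le_div_iff₀' (Nat.cast_pos.2 hw)).1 (min_le_right 1 ((g : ℝ) / w))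
    generalize min 1 ((g : ℝ) / w) = t at t0 t1 t2
    have k0 : (0 : ℝ) < K := by positivity
    split_ifs with h
    · exact ((mul_le_mul_of_nonneg_left (Real.rpow_le_self_of_le_one t0 t1 hp.le) (by positivity)).trans
        t2).trans (le_add_of_nonneg_left (by positivity))
    rw [add_zero, le_div_iff₀ k0]
    rify at h1 hw hq
    rcases not_and_or.1 h with h | h <;> rw [not_lt] at h <;> rify at h
    · have := Real.rpow_le_one t0 t1 (zero_le_one.trans hp.le)
      have := mul_le_mul this h1 k0.le zero_le_one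
      nlinarith
    · have h3 : (t * q) ^ (p - 1) ≤ 1 := Real.rpow_le_one (by positivity) (by nlinarith) (by linarith)
      rw [Real.mul_rpow t0 hq.le] at h3
      have h4 := (mul_le_mul_of_nonneg_left h2 (Real.rpow_nonneg t0 (p - 1))).trans h3
      rw [show t ^ p = t * t ^ (p - 1) by
        rw [← Real.rpow_one_add' t0 (by linarith), add_sub_cancel]]
      nlinarith [mul_le_mul t2 h4 (by positivity) (by positivity)]
  · rw [sum_add_distrib, ← sum_filter, sum_const, sum_const, card_range, nsmul_eq_mul, nsmul_eq_mul,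
      mul_div_cancel₀ _ (by positivity), two_mul]
    refine add_le_add_right (mul_le_of_le_one_left (by positivity) (Nat.cast_le_one.2
      (card_le_one.2 fun s hs t ht => ?_))) _
    have key : ∀ s t, g < q * q ^ (2 * s) → q ^ (2 * t) < g * q → t ≤ s := fun s t a b => by
      by_contra! h
      have := Nat.pow_le_pow_right hq (show 2 * s + 2 ≤ 2 * t by omega)
      rw [pow_add] at this
      nlinarith
    simp only [mem_filter] at hs ht
    exact le_antisymm (key _ _ ht.2.1 hs.2.2) (key _ _ hs.2.1 ht.2.2)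

lemma block {p : ℝ} (hp : 1 < p) (i : ℕ) : ∃ (B : Finset (ℕ × ℕ)) (T : ℕ) (C a : ℝ)
    (Y : ℕ → ℕ × ℕ → ℝ), (∀ n, ∀ j ∉ B, Y n j = 0) ∧ (∀ n j, n = 0 ∨ T ≤ n → Y n j = 0) ∧ 0 ≤ C ∧
      C * T ≤ 24 * (1 / 2) ^ i ∧ (∀ n m, n ≤ m → ∑ j ∈ B, |Y m j - Y n j| ^ p ≤
        C * ((min m T : ℕ) - (min n T : ℕ))) ∧ 0 ≤ a ∧ B.card * a ^ p = 1 ∧
          ∀ j ∈ B, ∃ n ≥ i, Y n j = a := by
  obtain ⟨q, h1, h2⟩ := ((eventually_ge_atTop (2 ^ i)).and (((tendsto_rpow_atTop (sub_pos.2 hp)).comp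
    tendsto_natCast_atTop_atTop).eventually_ge_atTop ((2 ^ i : ℕ) : ℝ))).exists
  have h3 : i ≤ 2 ^ i := Nat.lt_two_pow_self.le
  have h4 : ((2 ^ i : ℕ) : ℝ)⁻¹ = (1 / 2) ^ i := by simp
  have h0 : 0 < 2 ^ i := by positivity
  generalize 2 ^ i = K at h0 h1 h2 h3 h4
  have hq : 0 < q := h0.trans_le h1
  have h5 : ∀ s ≤ 2 * K, q ^ s ≤ q ^ (2 * K) := fun s => Nat.pow_le_pow_right hq
  have h6 := h5 1 (by omega)
  rw [pow_one] at h6
  generalize q ^ (2 * K) = W at h5 h6
  have hW : 0 < W := hq.trans_le h6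
  obtain ⟨a, a0, a1⟩ : ∃ a : ℝ, 0 ≤ a ∧ a ^ p = (K * W : ℝ)⁻¹ :=
    ⟨_, by positivity, Real.rpow_inv_rpow (by positivity) (by linarith)⟩
  refine ⟨range K ×ˢ range W, 3 * W, 8 * a ^ p, a, fun n j => if j ∈ range K ×ˢ range W then
    a * tent (min n (3 * W)) (j.2 + W) (q ^ (2 * j.1)) else 0, fun n j h => if_neg h, fun n j h => ?_,
    by positivity, le_of_eq ?_, fun n m h => ?_, a0, ?_, fun j hj => ⟨j.2 + W, by omega, ?_⟩⟩
  · refine ite_eq_right_iff.2 fun hj => ?_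
    simp only [mem_product, mem_range] at hj
    have := h5 (2 * j.1) (by omega)
    rw [tent_zero (by positivity) (by omega), mul_zero]
  · rw [a1, ← h4]
    push_cast
    field_simp
    norm_num
  · obtain ⟨g, hg⟩ := Nat.exists_eq_add_of_le (min_le_min_right (3 * W) h)
    rw [sum_congr (g := fun j => a ^ p * |tent (min n (3 * W) + g) (j.2 + W) (q ^ (2 * j.1)) -
      tent (min n (3 * W)) (j.2 + W) (q ^ (2 * j.1))| ^ p) rfl fun j hj => by
        simp only [if_pos hj, hg]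
        rw [← mul_sub, abs_mul, abs_of_nonneg a0, Real.mul_rpow a0 (abs_nonneg _)],
      ← mul_sum, sum_product, mul_comm 8, mul_assoc, hg]
    refine mul_le_mul_of_nonneg_left ((sum_le_sum fun s _ => scale hp (min n (3 * W)) g W
      (pow_pos hq (2 * s))).trans ?_) (by positivity)
    rw [← mul_sum]
    push_cast
    have := scales hp g h0 h1 h2
    push_cast at this
    linarith
  · rw [a1, card_product, card_range, card_range, Nat.cast_mul, mul_inv_cancel₀ (by positivity)]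
  · simp only [if_pos hj]
    rw [min_eq_left (by have := mem_range.1 (mem_product.1 hj).2; omega)]
    simp [tent]

theorem result (p : ℝ) (hp : 1 < p) : ∃ x : ℕ → ℕ → ℝ, (∀ n, x n ∈ L p) ∧ BuoCauchy p x ∧
    ∀ e ∈ L p, ¬ OConv p x e ∧ ¬ BuoConv p x e := by
  choose B T C a Y h1 h2 h3 h4 h5 h6 h7 h8 using block hp
  obtain ⟨φ⟩ : Nonempty (ℕ ≃ ℕ × ℕ × ℕ) := inferInstance
  have p0 : p ≠ 0 := by linarith
  have k1 : ∀ f : ℕ × ℕ × ℕ → ℝ, (∀ i, ∀ j ∉ B i, f (i, j) = 0) →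
      (∀ i, ∑ j ∈ B i, |f (i, j)| ^ p ≤ C i * T i) → (fun j => f (φ j)) ∈ L p := fun f f1 f2 => by
    have f3 : ∀ i, ∀ j ∉ B i, |f (i, j)| ^ p = 0 := fun i j h => by simp [f1 i j h, p0]
    refine (φ.summable_iff (f := fun j => |f j| ^ p)).2 ((summable_prod_of_nonneg fun _ => by
      positivity).2 ⟨fun i => summable_of_ne_finset_zero (f3 i), .of_nonneg_of_le (fun i =>
        tsum_nonneg fun _ => by positivity) (fun i => ?_) (summable_geometric_two.mul_left 24)⟩)
    exact (tsum_eq_sum (f3 i)).trans_le ((f2 i).trans (h4 i))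
  have k2 : ∀ (y e : ℕ → ℝ) (N : ℕ), y ∈ L p → ¬ ∀ n ≥ N, |(fun j => Y (φ j).1 n (φ j).2) - e| ≤ y :=
    fun y e N hy H => by
      have y1 := (φ.symm.summable_iff.2 (hy.mul_left (2 ^ p)))
      obtain ⟨i, i1, i2⟩ := ((eventually_ge_atTop N).and (y1.prod.tendsto_atTop_zero.eventually
        (gt_mem_nhds one_pos))).exists
      refine i2.not_ge (le_trans ?_ ((y1.prod_factor i).sum_le_tsum (B i) fun j _ => by
        simp only [Function.comp]; positivity))
      rw [← h7 i, ← nsmul_eq_mul]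
      refine card_nsmul_le_sum _ _ _ fun j hj => ?_
      obtain ⟨n, n1, n2⟩ := h8 i j hj
      have b1 := H n (i1.trans n1) (φ.symm (i, j))
      have b2 := H (N + T i) (by omega) (φ.symm (i, j))
      simp only [Pi.abs_apply, Pi.sub_apply, Equiv.apply_symm_apply, n2,
        h2 i (N + T i) j (.inr (by omega))] at b1 b2
      refine (Real.rpow_le_rpow (h6 i) ?_ (by linarith)).trans_eq (Real.mul_rpow zero_le_two (abs_nonneg _))
      linarith [abs_le.1 b1, abs_le.1 b2, le_abs_self (y (φ.symm (i, j)))]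
  refine ⟨fun n j => Y (φ j).1 n (φ j).2, fun n => k1 (fun j => Y j.1 n j.2) (fun i => h1 i n) fun i => ?_,
    fun n hn => ?_, fun e _ => ⟨fun ⟨z, N, z1, _, _, z2⟩ => k2 _ e (N 0) (z1 0).1 (z2 0),
      fun ⟨_, y, y1, y2⟩ => k2 y 0 0 y1 fun n _ => by simpa using y2 n⟩⟩
  · have := h5 i 0 n n.zero_le
    simp only [h2 i 0 _ (.inl rfl), sub_zero, Nat.zero_min, Nat.cast_zero] at this
    exact this.trans (mul_le_mul_of_nonneg_left (Nat.cast_le.2 (min_le_right _ _)) (h3 i))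
  have d0 : ∀ i j k, T i ≤ k → Y i (n (k + 1)) j - Y i (n k) j = 0 := fun i j k h => by
    rw [h2 _ _ _ (.inr (h.trans (hn.le_apply))), h2 _ _ _ (.inr ((h.trans k.le_succ).trans hn.le_apply)),
      sub_zero]
  let y : ℕ × ℕ × ℕ → ℝ := fun j =>
    (∑ k ∈ range (T j.1), |Y j.1 (n (k + 1)) j.2 - Y j.1 (n k) j.2| ^ p) ^ p⁻¹
  have y0 : ∀ j, 0 ≤ y j := fun j => by positivity
  have y1 := k1 y (fun i j h => by simp [y, h1 i _ j h, p0]) fun i => by
    rw [sum_congr rfl fun j _ => (congrArg (· ^ p) (abs_of_nonneg (y0 _))).trans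
      (Real.rpow_inv_rpow (by positivity) p0)]
    refine (sum_comm (t := range (T i))).trans_le ((sum_le_sum fun k _ => h5 i (n k) (n (k + 1))
      (hn.monotone (Nat.le_succ k))).trans ?_)
    rw [← mul_sum, sum_range_sub fun k => ((min (n k) (T i) : ℕ) : ℝ)]
    exact mul_le_mul_of_nonneg_left ((sub_le_self _ (by positivity)).trans
      (Nat.cast_le.2 (min_le_right _ _))) (h3 i)
  refine ⟨fun m j => if j < m then 0 else y (φ j), fun m => ∑ j ∈ range m, T (φ j).1, fun m =>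
    ⟨.of_nonneg_of_le (fun _ => by positivity) (fun j => ?_) y1, fun j => ?_⟩, fun m m' h j => ?_,
    fun w _ h j => (h (j + 1) j).trans_eq (if_pos j.lt_succ_self), fun m k hk j => ?_⟩
  · dsimp only
    split_ifs
    exacts [by simp only [abs_zero, Real.zero_rpow p0]; positivity, le_rfl]
  · dsimp only
    split_ifs
    exacts [le_rfl, y0 _]
  · dsimp only
    split_ifs
    exacts [le_rfl, le_rfl.trans (y0 _), by omega, le_rfl]
  · simp only [Pi.abs_apply, Pi.sub_apply, sub_zero]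
    split_ifs with h
    · rw [d0 _ _ _ ((single_le_sum (f := fun j => T (φ j).1) (fun _ _ => Nat.zero_le _)
        (mem_range.2 h)).trans hk), abs_zero]
    · rcases le_or_gt (T (φ j).1) k with h | h
      · rw [d0 _ _ _ h, abs_zero]; exact y0 _
      · exact (Real.le_rpow_inv_iff_of_pos (abs_nonneg _) (by positivity) (by linarith)).2
          (single_le_sum (f := fun k => |Y (φ j).1 (n (k + 1)) (φ j).2 - Y (φ j).1 (n k) (φ j).2| ^ p)
            (fun _ _ => by positivity) (mem_range.2 h))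

end Pool.Agent.Results.MP_55c50e_an.Counterexample
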